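import Pool.Agent.H37.CNP.Stmts
import Pool.Agent.H78.CNE.SLF
import Pool.Agent.H78.CNE.SLB

/-!
# Row PSB of the board `cnp`: the conductor of the cover with group `PSL_2(F)`
-/

set_option autoImplicit false

namespace Pool.CND

open Finset Matrix

section

variable {F : Type} [Field F]

theorem psb_center (g : SL F) :
    g ∈ Subgroup.center (SL F) ↔ g.1 1 0 = 0 ∧ g.1 0 1 = 0 ∧ g.1 0 0 = g.1 1 1 := by
  rw [Matrix.SpecialLinearGroup.mem_center_iff]
  constructor
  · rintro ⟨r, -, hr⟩
    rw [← hr]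
    simp
  · rintro ⟨h1, h2, h3⟩
    refine ⟨g.1 0 0, ?_, ?_⟩
    · have h4 := g.2
      rw [Matrix.det_fin_two, h1, mul_zero, sub_zero, ← h3] at h4
      rw [Fintype.card_fin, pow_two]
      exact h4
    · ext i j
      fin_cases i <;> fin_cases j
      · simp
      · simpa using h2.symm
      · simpa using h1.symm
      · simpa using h3

/-- upper triangular matrices with the first entry in a set -/
def psbEquiv (S : Set F) (hS : ∀ a ∈ S, a ≠ 0) :
    S × F ≃ {g : SL F | g.1 1 0 = 0 ∧ g.1 0 0 ∈ S} where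
  toFun x := ⟨⟨!![(x.1 : F), x.2; 0, (x.1 : F)⁻¹], by
    rw [Matrix.det_fin_two_of, mul_inv_cancel₀ (hS _ x.1.2), mul_zero, sub_zero]⟩, rfl, x.1.2⟩
  invFun g := (⟨g.1.1 0 0, g.2.2⟩, g.1.1 0 1)
  left_inv x := rfl
  right_inv := by
    rintro ⟨g, h2, h3⟩
    refine Subtype.ext (Subtype.ext ?_)
    have h4 := slb_det g h2
    ext i j
    fin_cases i <;> fin_cases j
    · rfl
    · rfl
    · exact h2.symm
    · exact (eq_inv_of_mul_eq_one_right h4).symm

theorem psb_card (S : Set F) (hS : ∀ a ∈ S, a ≠ 0) :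
    {g : SL F | g.1 1 0 = 0 ∧ g.1 0 0 ∈ S}.ncard = S.ncard * Nat.card F := by
  rw [← Nat.card_coe_set_eq, ← Nat.card_congr (psbEquiv S hS), Nat.card_prod,
    Nat.card_coe_set_eq]

theorem psb_pm (h2 : (2 : F) ≠ 0) : {a : F | a * a = 1}.ncard = 2 := by
  have e : {a : F | a * a = 1} = {1, -1} := by
    ext a
    simp only [Set.mem_setOf_eq, Set.mem_insert_iff, Set.mem_singleton_iff]
    constructor
    · intro h
      have h3 : (a - 1) * (a + 1) = 0 := by linear_combination h
      rcases mul_eq_zero.1 h3 with h4 | h4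
      · exact Or.inl (by linear_combination h4)
      · exact Or.inr (by linear_combination h4)
    · rintro (rfl | rfl) <;> ring
  rw [e]
  apply Set.ncard_pair
  intro h
  apply h2
  linear_combination h

theorem psb_cen (h2 : (2 : F) ≠ 0) : Nat.card (Subgroup.center (SL F)) = 2 := by
  have e : Subgroup.center (SL F) ≃ {a : F | a * a = 1} :=
    { toFun := fun g => ⟨g.1.1 0 0, by
        have h1 := (psb_center g.1).1 g.2
        have h4 := slb_det g.1 h1.1
        rw [← h1.2.2] at h4
        exact h4⟩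
      invFun := fun a => ⟨⟨!![(a : F), 0; 0, (a : F)], by
        rw [Matrix.det_fin_two_of, mul_zero, sub_zero]
        exact a.2⟩, (psb_center _).2 ⟨rfl, rfl, rfl⟩⟩
      left_inv := by
        rintro ⟨g, hg⟩
        have h1 := (psb_center g).1 hg
        refine Subtype.ext (Subtype.ext ?_)
        ext i j
        fin_cases i <;> fin_cases j
        · rfl
        · exact h1.2.1.symm
        · exact h1.1.symm
        · exact h1.2.2
      right_inv := fun a => rfl }
  rw [Nat.card_congr e, Nat.card_coe_set_eq, psb_pm h2]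

theorem psb_ncard (h2 : (2 : F) ≠ 0) (S : Set (PS F)) :
    {g : SL F | (g : PS F) ∈ S}.ncard = 2 * S.ncard := by
  have h1 := Nat.card_congr
    (QuotientGroup.preimageMkEquivSubgroupProdSet (Subgroup.center (SL F)) S)
  rw [Nat.card_prod, psb_cen h2, Nat.card_coe_set_eq, Nat.card_coe_set_eq] at h1
  exact h1

end

section

variable {p : ℕ} {k F L : Type} [Field k] [Field F] [Field L] [Algebra F k] [Algebra k L]
  {f q m : ℕ} {s x y : L} {ρ : SL F →* (L ≃ₐ[k] L)} {P : Place k L}

theorem psb_ram0 {G : Type} [Group G] (P : Place k L) (ρ : G →* (L ≃ₐ[k] L)) (g : G) :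
    g ∈ ram P ρ 0 ↔ Fixes P (ρ g) := by
  constructor
  · exact fun h => h.1
  · intro h
    refine ⟨h, fun u _ h1 => ?_⟩
    by_cases e : ρ g u = u
    · exact Or.inl e
    · right
      have h2 : P.Ge u 1 := by
        have h3 := P.ge_ord u
        rw [h1] at h3
        exact h3
      have h4 := (P.ge_iff (sub_ne_zero.2 e) 1).1 (P.ge_sub (h.ge h2) h2)
      rw [Nat.cast_zero, zero_add]
      exact h4

/-- quadratic monomials lie in the fixed field of the centre -/
theorem Sl.fix_center (H : Sl k F L q m s x y ρ P) {g : SL F}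
    (hg : g ∈ Subgroup.center (SL F)) :
    ρ g (x ^ 2) = x ^ 2 ∧ ρ g (x * y) = x * y ∧ ρ g (y ^ 2) = y ^ 2 := by
  obtain ⟨h10, h01, h3⟩ := (psb_center g).1 hg
  have hd := slb_det g h10
  rw [← h3] at hd
  have hc : cst k F L (g.1 0 0) * cst k F L (g.1 0 0) = 1 := by
    simp only [cst]
    rw [← map_mul, ← map_mul, hd, map_one, map_one]
  have ax : ρ g x = cst k F L (g.1 0 0) * x := by
    rw [H.act_x, h10]
    simp [cst]
  have ay : ρ g y = cst k F L (g.1 0 0) * y := by
    rw [H.act_y, h01, ← h3]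
    simp [cst]
  refine ⟨?_, ?_, ?_⟩
  · rw [map_pow, ax]
    linear_combination x ^ 2 * hc
  · rw [map_mul, ax, ay]
    linear_combination x * y * hc
  · rw [map_pow, ay]
    linear_combination y ^ 2 * hc

end

theorem psb_thm (hFXP : S_FXP) (hSLF : S_SLF) (hLO2 : S_LO2) (hTMO : S_TMO) (hRAM : S_RAM)
    (hLON : S_LON) (hINJ : S_INJ) : S_PSB := by
  intro p k F L _ _ _ _ _ _ f q m s x y ρ P hp hch hp2 hf hq hF hm hmp H E ρ' hE hρ'
  have hq2 : 2 ≤ q := by
    rw [hq]
    exact le_trans hp.two_le (Nat.le_self_pow (by omega) p)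
  haveI : Finite F := Nat.finite_of_card_ne_zero (by rw [hF]; omega)
  haveI hfin : Finite (SL F) := by
    unfold SL Matrix.SpecialLinearGroup
    infer_instance
  have hchF : CharP F p := (RingHom.charP_iff (algebraMap F k) (algebraMap F k).injective p).2 hch
  have h2F : (2 : F) ≠ 0 := by
    intro h
    have h3 : ((2 : ℕ) : F) = 0 := by exact_mod_cast h
    have h4 := (CharP.cast_eq_zero_iff F p 2).1 h3
    have h5 := Nat.le_of_dvd (by norm_num) h4
    have h6 := hp.two_le
    exact hp2 (by omega)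
  have hpm : ¬ p ∣ m := by
    intro h
    have h1 : p ∣ Nat.gcd m (p * (q - 1)) := Nat.dvd_gcd h (Dvd.intro _ rfl)
    rw [hmp] at h1
    exact hp.one_lt.ne' (Nat.dvd_one.1 h1)
  have hfx : ∀ g : SL F, Fixes P (ρ g) ↔ g.1 1 0 = 0 :=
    hSLF p k F L f q m s x y ρ P hp hch hf hq hF hm hmp H
  have hinj : Function.Injective ρ := by
    rw [injective_iff_map_eq_one]
    intro g hg
    have h1 : Fixes P (ρ g) := by
      rw [hg]
      exact Fixes.one
    exact H.inj_borel ((hfx g).1 h1) hg
  have hcfix : ∀ n ∈ Subgroup.center (SL F), Fixes P (ρ n) := fun n hn =>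
    (hfx n).2 ((psb_center n).1 hn).1
  obtain ⟨E', hE', Q, hQ⟩ := hFXP k L (SL F) P ρ (Subgroup.center (SL F)) hinj hcfix
  have hEE : E' = E := by
    ext z
    rw [hE', hE]
  subst hEE
  rw [psb_cen h2F] at hQ
  have hQ' : ∀ z : E', z ≠ 0 → 2 * Q.ord z = P.ord (z : L) := by
    intro z hz
    have h1 := hQ z hz
    push_cast at h1
    exact h1
  refine ⟨Q, hQ', ?_⟩
  -- the elements
  obtain ⟨X2, hX2⟩ : ∃ z : E', (z : L) = x ^ 2 :=
    ⟨⟨x ^ 2, (hE _).2 fun g hg => (H.fix_center hg).1⟩, rfl⟩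
  obtain ⟨XY, hXY⟩ : ∃ z : E', (z : L) = x * y :=
    ⟨⟨x * y, (hE _).2 fun g hg => (H.fix_center hg).2.1⟩, rfl⟩
  obtain ⟨Y2, hY2⟩ : ∃ z : E', (z : L) = y ^ 2 :=
    ⟨⟨y ^ 2, (hE _).2 fun g hg => (H.fix_center hg).2.2⟩, rfl⟩
  have nX2 : X2 ≠ 0 := by
    intro h
    rw [h] at hX2
    exact pow_ne_zero 2 H.x_ne (by rw [← hX2]; rfl)
  have nY2 : Y2 ≠ 0 := by
    intro h
    rw [h] at hY2
    exact pow_ne_zero 2 H.y_ne (by rw [← hY2]; rfl)
  have e0 : cst k F L 0 = 0 := by simp [cst]
  have e1 : cst k F L 1 = 1 := by simp [cst]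
  have emul : ∀ a b : F, cst k F L (a * b) = cst k F L a * cst k F L b := fun a b => by
    simp [cst]
  -- Fixes
  have hfQ : ∀ g : SL F, Fixes Q (ρ' (g : PS F)) ↔ g.1 1 0 = 0 := by
    intro g
    constructor
    · intro h
      by_contra h10
      have h1 := h X2 nX2
      have h3 : (ρ' (g : PS F)) X2 ≠ 0 := (map_ne_zero_iff _ (ρ' (g : PS F)).injective).2 nX2
      have h4 := hQ' _ h3
      have h5 := hQ' _ nX2
      rw [h1, h5, hρ', hX2, map_pow, H.act_x] at h4
      obtain ⟨h6, h7⟩ := H.ord_lin hm (g.1 0 0) h10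
      rw [P.ord_pow H.x_ne, P.ord_pow h6, h7, H.ord_x, H.ord_y] at h4
      have h8 : 0 < m * q := Nat.mul_pos hm (by omega)
      push_cast at h4
      have h9 : (0 : ℤ) < (m : ℤ) * q := by exact_mod_cast h8
      have h10 : (0 : ℤ) < (m : ℤ) := by exact_mod_cast hm
      linarith
    · intro h10 z hz
      have h1 := (hfx g).2 h10
      have h3 : (ρ' (g : PS F)) z ≠ 0 := (map_ne_zero_iff _ (ρ' (g : PS F)).injective).2 hz
      have h4 := hQ' _ h3
      have h5 := hQ' _ hz
      have hzL : (z : L) ≠ 0 := fun h => hz (Subtype.ext h)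
      rw [hρ', h1 _ hzL] at h4
      linarith
  -- injectivity
  have hinj' : ∀ g : SL F, ρ' (g : PS F) = 1 → g ∈ Subgroup.center (SL F) := by
    intro g hg
    have h10 : g.1 1 0 = 0 := by
      rw [← hfQ, hg]
      exact Fixes.one
    have hd := slb_det g h10
    have ax : ρ g x = cst k F L (g.1 0 0) * x := by
      rw [H.act_x, h10, e0, zero_mul, add_zero]
    have h1 : ρ g (x ^ 2) = x ^ 2 := by
      rw [← hX2, ← hρ', hg]
      rfl
    have h3 : ρ g (x * y) = x * y := by
      rw [← hXY, ← hρ', hg]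
      rfl
    rw [map_pow, ax] at h1
    have haa : g.1 0 0 * g.1 0 0 = 1 := by
      apply slb_cst_inj (k := k) (L := L)
      rw [emul, e1]
      have h4 : (cst k F L (g.1 0 0) * cst k F L (g.1 0 0) - 1) * x ^ 2 = 0 := by
        linear_combination h1
      rcases mul_eq_zero.1 h4 with h5 | h5
      · linear_combination h5
      · exact absurd h5 (pow_ne_zero 2 H.x_ne)
    have had : g.1 0 0 = g.1 1 1 := by linear_combination (g.1 1 1) * haa - (g.1 0 0) * hd
    rw [map_mul, ax, H.act_y] at h3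
    have hcd : cst k F L (g.1 0 0) * cst k F L (g.1 1 1) = 1 := by rw [← emul, hd, e1]
    have hb : g.1 0 0 * g.1 0 1 = 0 := by
      apply slb_cst_inj (k := k) (L := L)
      rw [emul, e0]
      have h4 : (cst k F L (g.1 0 0) * cst k F L (g.1 0 1)) * x ^ 2 = 0 := by
        linear_combination h3 - x * y * hcd
      rcases mul_eq_zero.1 h4 with h5 | h5
      · exact h5
      · exact absurd h5 (pow_ne_zero 2 H.x_ne)
    have h01 : g.1 0 1 = 0 := by
      rcases mul_eq_zero.1 hb with h5 | h5
      · rw [h5, zero_mul] at haa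
        exact absurd haa zero_ne_one
      · exact h5
    exact (psb_center g).2 ⟨h10, h01, had⟩
  -- the break
  have hbr : ∀ g : SL F, g ∉ Subgroup.center (SL F) → g.1 1 0 = 0 → g.1 0 0 * g.1 0 0 = 1 →
      1 ≤ Q.b (ρ' (g : PS F)) → 2 * Q.b (ρ' (g : PS F)) = ((m * (q + 1) : ℕ) : ℤ) := by
    intro g hg h10 haa hb
    have hd := slb_det g h10
    have had : g.1 0 0 = g.1 1 1 := by linear_combination (g.1 1 1) * haa - (g.1 0 0) * hd
    have hFx := (hfQ g).2 h10
    have hne1 : ρ' (g : PS F) ≠ 1 := fun h => hg (hinj' g h)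
    have hpi : ρ' (g : PS F) Q.pi ≠ Q.pi := fun hcon =>
      hne1 (hINJ k E' Q (ρ' (g : PS F)) Q.pi hFx Q.pi_ne Q.ord_pi hcon)
    have hb' : Q.ord (ρ' (g : PS F) Q.pi - Q.pi) = Q.b (ρ' (g : PS F)) + 1 := by
      rw [Place.b]
      ring
    have oY : Q.ord Y2 = -(m : ℤ) := by
      have h1 := hQ' _ nY2
      rw [hY2, P.ord_pow H.y_ne, H.ord_y] at h1
      push_cast at h1
      linarith
    have hy : ¬ (p : ℤ) ∣ Q.ord Y2 := by
      rw [oY, dvd_neg]
      intro hcon
      exact hpm (by exact_mod_cast hcon)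
    obtain ⟨n7, h7⟩ := (hLO2 p k E' Q (ρ' (g : PS F)) Q.pi (Q.b (ρ' (g : PS F))) hp hch hFx
      Q.pi_ne Q.ord_pi hb hpi hb' Y2 nY2).1 hy
    have h8 := hQ' _ (sub_ne_zero.2 n7)
    have h01 : g.1 0 1 ≠ 0 := fun h => hg ((psb_center g).2 ⟨h10, h, had⟩)
    obtain ⟨c1, c2⟩ := slf_cst (k := k) (L := L) P h01
    have h11 : g.1 1 1 ≠ 0 := right_ne_zero_of_mul_eq_one hd
    have h12 : 2 * g.1 1 1 ≠ 0 := mul_ne_zero h2F h11
    obtain ⟨d1, d2⟩ := H.ord_lin hm (g.1 0 1) h12
    have e2 : ((ρ' (g : PS F) Y2 - Y2 : E') : L) =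
        cst k F L (g.1 0 1) * (x * (cst k F L (g.1 0 1) * x + cst k F L (2 * g.1 1 1) * y)) := by
      have e3 : ((ρ' (g : PS F) Y2 - Y2 : E') : L) = ρ g (y ^ 2) - y ^ 2 := by
        rw [← hY2, ← hρ']
        rfl
      rw [e3, map_pow, H.act_y]
      have e4 : cst k F L (2 * g.1 1 1) = 2 * cst k F L (g.1 1 1) := by
        rw [emul]
        have e6 : cst k F L 2 = 2 := by
          have e7 : cst k F L ((2 : ℕ) : F) = ((2 : ℕ) : L) := by
            simp only [cst]
            rw [map_natCast, map_natCast]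
          exact_mod_cast e7
        rw [e6]
      have e5 : cst k F L (g.1 1 1) * cst k F L (g.1 1 1) = 1 := by
        rw [← had, ← emul, haa, e1]
      rw [e4]
      linear_combination y ^ 2 * e5
    rw [e2, P.ord_mul _ _ c1 (mul_ne_zero H.x_ne d1), P.ord_mul _ _ H.x_ne d1, c2, d2, H.ord_x,
      H.ord_y, h7, oY] at h8
    push_cast at h8 ⊢
    linarith
  -- the higher ramification groups
  have hram : ∀ (i : ℕ) (g : SL F), 1 ≤ i → ((g : PS F) ∈ ram Q ρ' i ↔
      g ∈ Subgroup.center (SL F) ∨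
        (g.1 1 0 = 0 ∧ g.1 0 0 * g.1 0 0 = 1 ∧ 2 * i ≤ m * (q + 1))) := by
    intro i g hi
    rw [hRAM k E' (PS F) Q ρ' (g : PS F) i hi]
    constructor
    · rintro ⟨h1, h2⟩
      have h10 := (hfQ g).1 h1
      by_cases hg : g ∈ Subgroup.center (SL F)
      · exact Or.inl hg
      right
      have hρ : ρ' (g : PS F) ≠ 1 := fun h => hg (hinj' g h)
      have h3 : (i : ℤ) ≤ Q.b (ρ' (g : PS F)) := h2.resolve_left hρ
      have hi1 : (1 : ℤ) ≤ i := by exact_mod_cast hi
      have hb : 1 ≤ Q.b (ρ' (g : PS F)) := hi1.trans h3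
      have haa : g.1 0 0 * g.1 0 0 = 1 := by
        by_contra hne
        have h4 : Q.Ge (ρ' (g : PS F) Q.pi - Q.pi) (1 + 1) := by
          right
          have : Q.ord (ρ' (g : PS F) Q.pi - Q.pi) = Q.b (ρ' (g : PS F)) + 1 := by
            rw [Place.b]
            ring
          rw [this]
          linarith
        have h5 := (hLON k E' Q (ρ' (g : PS F)) Q.pi 1 h1 Q.pi_ne Q.ord_pi (by norm_num) h4
          X2).resolve_right nX2
        have e2 : ((ρ' (g : PS F) X2 - X2 : E') : L) =
            cst k F L (g.1 0 0 * g.1 0 0 - 1) * x ^ 2 := by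
          have e3 : ((ρ' (g : PS F) X2 - X2 : E') : L) = ρ g (x ^ 2) - x ^ 2 := by
            rw [← hX2, ← hρ']
            rfl
          rw [e3, map_pow, H.act_x, h10]
          simp [cst]
          ring
        obtain ⟨c1, c2⟩ := slf_cst (k := k) (L := L) P (sub_ne_zero.2 hne)
        have hne0 : (ρ' (g : PS F) X2 - X2 : E') ≠ 0 := by
          intro h0
          have h6 : ((ρ' (g : PS F) X2 - X2 : E') : L) = 0 := by rw [h0]; rfl
          rw [e2] at h6
          exact mul_ne_zero c1 (pow_ne_zero 2 H.x_ne) h6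
        have h6 := h5.resolve_left hne0
        have h7 := hQ' _ hne0
        have h8 := hQ' _ nX2
        rw [e2, P.ord_mul _ _ c1 (pow_ne_zero 2 H.x_ne), c2, zero_add, ← hX2] at h7
        linarith
      refine ⟨h10, haa, ?_⟩
      have h4 := hbr g hg h10 haa hb
      have h5 : ((2 * i : ℕ) : ℤ) ≤ ((m * (q + 1) : ℕ) : ℤ) := by
        rw [← h4]
        push_cast
        linarith
      exact_mod_cast h5
    · rintro (h1 | ⟨h10, haa, hi2⟩)
      · have h2 : (g : PS F) = 1 := (QuotientGroup.eq_one_iff g).2 h1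
        rw [h2, map_one]
        exact ⟨Fixes.one, Or.inl rfl⟩
      · have h1 := (hfQ g).2 h10
        refine ⟨h1, ?_⟩
        by_cases hρ : ρ' (g : PS F) = 1
        · exact Or.inl hρ
        right
        have hg : g ∉ Subgroup.center (SL F) := by
          intro hg
          apply hρ
          rw [(QuotientGroup.eq_one_iff g).2 hg, map_one]
        have hd := slb_det g h10
        have had : g.1 0 0 = g.1 1 1 := by linear_combination (g.1 1 1) * haa - (g.1 0 0) * hd
        have hgp : (g : PS F) ^ (2 * p) = 1 := by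
          have h3 : (g ^ 2).1 = g.1 * g.1 := by
            rw [pow_two]
            rfl
          have a1 : (g ^ 2).1 0 0 = 1 := by
            rw [h3, Matrix.mul_apply, Fin.sum_univ_two, h10, mul_zero, add_zero, haa]
          have a2 : (g ^ 2).1 1 0 = 0 := by
            rw [h3, Matrix.mul_apply, Fin.sum_univ_two, h10, zero_mul, mul_zero, add_zero]
          have a3 : (g ^ 2).1 1 1 = 1 := by
            rw [h3, Matrix.mul_apply, Fin.sum_univ_two, h10, zero_mul, zero_add, ← had, haa]
          obtain ⟨b1, b2, b3, b4⟩ := slb_pow (g ^ 2) a1 a2 a3 p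
          have hpF : (p : F) = 0 := CharP.cast_eq_zero F p
          rw [hpF, zero_mul] at b3
          have h4 : (g ^ 2) ^ p = 1 := slb_ext _ b1 b2 b3 b4
          rw [pow_mul]
          have h5 : ((g : PS F) ^ 2) ^ p = (((g ^ 2) ^ p : SL F) : PS F) := rfl
          rw [h5, h4]
          rfl
        -- `g ^ 2 ∈ ram 1`, so `g ∈ ram 1`
        have hram0 : ∀ j : ℕ, (g : PS F) ^ j ∈ ram Q ρ' 0 := by
          intro j
          rw [psb_ram0, map_pow]
          exact h1.pow j
        have h2ram : (g : PS F) ^ 2 ∈ ram Q ρ' 1 := by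
          apply hTMO p k E' (PS F) Q ρ' hp hch _ (hram0 2)
          rw [← pow_mul, hgp]
          refine ⟨by rw [map_one]; exact Fixes.one, ?_⟩
          intro u _ _
          left
          rw [map_one, AlgEquiv.one_apply]
        -- `g = (g ^ 2) ^ ((p + 1) / 2)` up to the centre
        have hodd : ∃ j, p = 2 * j + 1 := by
          rcases hp.eq_two_or_odd' with h3 | h3
          · exact absurd h3 hp2
          · exact h3
        obtain ⟨j, hj⟩ := hodd
        have hgp1 : (g : PS F) ^ p = 1 := by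
          have a1 : (g ^ p).1 1 0 = 0 ∧ (g ^ p).1 0 1 = 0 ∧ (g ^ p).1 0 0 = (g ^ p).1 1 1 := by
            have key : ∀ n : ℕ, (g ^ n).1 1 0 = 0 ∧ (g ^ n).1 0 0 = g.1 0 0 ^ n ∧
                (g ^ n).1 1 1 = g.1 0 0 ^ n ∧
                g.1 0 0 * (g ^ n).1 0 1 = n * (g.1 0 0 ^ n * g.1 0 1) := by
              intro n
              induction n with
              | zero =>
                rw [pow_zero]
                refine ⟨?_, ?_, ?_, ?_⟩ <;> simp
              | succ n ih =>
                obtain ⟨i1, i2, i3, i4⟩ := ih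
                have e : (g ^ (n + 1)).1 = (g ^ n).1 * g.1 := by
                  rw [pow_succ]
                  rfl
                rw [e]
                refine ⟨?_, ?_, ?_, ?_⟩
                · rw [Matrix.mul_apply, Fin.sum_univ_two, i1, h10]
                  ring
                · rw [Matrix.mul_apply, Fin.sum_univ_two, i2, h10]
                  ring
                · rw [Matrix.mul_apply, Fin.sum_univ_two, i1, i3, ← had]
                  ring
                · rw [Matrix.mul_apply, Fin.sum_univ_two, i2, ← had, mul_add, ← mul_assoc,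
                    ← mul_assoc, i4]
                  push_cast
                  ring
            obtain ⟨i1, i2, i3, i4⟩ := key p
            refine ⟨i1, ?_, by rw [i2, i3]⟩
            rw [CharP.cast_eq_zero F p, zero_mul] at i4
            rcases mul_eq_zero.1 i4 with h5 | h5
            · rw [h5, zero_mul] at haa
              exact absurd haa zero_ne_one
            · exact h5
          have h5 : (g : PS F) ^ p = ((g ^ p : SL F) : PS F) := rfl
          rw [h5]
          exact (QuotientGroup.eq_one_iff _).2 ((psb_center _).2 a1)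
        have hram1 : (g : PS F) ∈ ram Q ρ' 1 := by
          apply hTMO p k E' (PS F) Q ρ' hp hch _ (by simpa using hram0 1)
          rw [hgp1]
          refine ⟨by rw [map_one]; exact Fixes.one, ?_⟩
          intro u _ _
          left
          rw [map_one, AlgEquiv.one_apply]
        have h3 := ((hRAM k E' (PS F) Q ρ' (g : PS F) 1 le_rfl).1 hram1).2.resolve_left hρ
        have hb : 1 ≤ Q.b (ρ' (g : PS F)) := by exact_mod_cast h3
        have h4 := hbr g hg h10 haa hb
        have h5 : ((2 * i : ℕ) : ℤ) ≤ 2 * Q.b (ρ' (g : PS F)) := by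
          rw [h4]
          exact_mod_cast hi2
        push_cast at h5
        linarith
  -- the orders
  obtain ⟨l, hl⟩ : ∃ l, m * (q + 1) = 2 * l := by
    have h1 : Odd q := by
      rw [hq]
      exact (hp.odd_of_ne_two hp2).pow
    obtain ⟨j, hj⟩ := h1
    exact ⟨m * (j + 1), by rw [hj]; ring⟩
  have hl1 : 1 ≤ l := by
    have : 0 < m * (q + 1) := Nat.mul_pos hm (Nat.succ_pos q)
    omega
  have c0 : 2 * (ram Q ρ' 0).ncard = (q - 1) * q := by
    rw [← psb_ncard h2F]
    have e : {g : SL F | (g : PS F) ∈ ram Q ρ' 0} =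
        {g : SL F | g.1 1 0 = 0 ∧ g.1 0 0 ∈ ({a : F | a ≠ 0} : Set F)} := by
      ext g
      simp only [Set.mem_setOf_eq]
      rw [psb_ram0, hfQ]
      exact ⟨fun h => ⟨h, left_ne_zero_of_mul_eq_one (slb_det g h)⟩, fun h => h.1⟩
    rw [e, psb_card {a : F | a ≠ 0} (fun a ha => ha), hF]
    congr 1
    have e3 : ({a : F | a ≠ 0} : Set F) = ({0} : Set F)ᶜ := by
      ext a
      simp
    rw [e3, Set.ncard_compl, Set.ncard_singleton, hF]
  have ci : ∀ i, 1 ≤ i → i ≤ l → (ram Q ρ' i).ncard = q := by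
    intro i hi1 hi2
    have h1 : 2 * (ram Q ρ' i).ncard = 2 * q := by
      rw [← psb_ncard h2F]
      have e : {g : SL F | (g : PS F) ∈ ram Q ρ' i} =
          {g : SL F | g.1 1 0 = 0 ∧ g.1 0 0 ∈ ({a : F | a * a = 1} : Set F)} := by
        ext g
        simp only [Set.mem_setOf_eq]
        rw [hram i g hi1]
        constructor
        · rintro (h | h)
          · have h1 := (psb_center g).1 h
            have h2 := slb_det g h1.1
            rw [← h1.2.2] at h2
            exact ⟨h1.1, h2⟩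
          · exact ⟨h.1, h.2.1⟩
        · exact fun h => Or.inr ⟨h.1, h.2, by omega⟩
      rw [e, psb_card {a : F | a * a = 1} (fun a ha => left_ne_zero_of_mul_eq_one ha), hF,
        psb_pm h2F]
    omega
  refine ⟨l, ?_, ?_, ?_⟩
  · intro h
    have h1 := ci l hl1 le_rfl
    rw [h, Set.ncard_singleton] at h1
    omega
  · ext h
    obtain ⟨g, rfl⟩ := QuotientGroup.mk_surjective h
    rw [Set.mem_singleton_iff, QuotientGroup.eq_one_iff]
    rw [hram (l + 1) g (by omega)]
    constructor
    · rintro (h | h)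
      · exact h
      · exact absurd h.2.2 (by omega)
    · exact fun h => Or.inl h
  · rw [Finset.sum_congr rfl fun i hi => by
      rw [ci i (Finset.mem_Icc.1 hi).1 (Finset.mem_Icc.1 hi).2]]
    rw [Finset.sum_const, Nat.card_Icc, nsmul_eq_mul, Nat.add_sub_cancel]
    have e3 : ((q - 1 : ℕ) : ℚ) ≠ 0 := by
      rw [Nat.cast_ne_zero]
      omega
    have e4 : (q : ℚ) ≠ 0 := by
      rw [Nat.cast_ne_zero]
      omega
    have e5 : 2 * ((ram Q ρ' 0).ncard : ℚ) = ((q - 1 : ℕ) : ℚ) * q := by exact_mod_cast c0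
    have e6 : ((ram Q ρ' 0).ncard : ℚ) ≠ 0 := by
      intro h0
      rw [h0, mul_zero] at e5
      exact mul_ne_zero e3 e4 e5.symm
    have e7 : (m : ℚ) * (q + 1) = 2 * l := by exact_mod_cast hl
    rw [e7, div_eq_div_iff e3 e6]
    linear_combination (l : ℚ) * e5
end Pool.CND
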