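import Pool.Agent.H37.CNP.Stmts

/-!
# Row RMX of the board `cnp`: an invariant element of order `|J|`
-/

set_option autoImplicit false

namespace Pool.CND

open Finset

section

variable {k L : Type} [Field k] [Field L] [Algebra k L]

/-- the place `z ↦ P.ord (σ z)` -/
noncomputable def rmxPl (P : Place k L) (σ : L ≃ₐ[k] L) : Place k L where
  ord z := P.ord (σ z)
  ord_mul x y hx hy := by
    rw [map_mul]
    exact P.ord_mul _ _ (by simpa using hx) (by simpa using hy)
  ord_add x y hx hy hxy := by
    rw [map_add]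
    refine P.ord_add _ _ (by simpa using hx) (by simpa using hy) ?_
    rw [← map_add]
    exact (map_ne_zero_iff _ σ.injective).2 hxy
  ord_surj := by
    obtain ⟨x, hx, h1⟩ := P.ord_surj
    exact ⟨σ.symm x, by simpa using hx, by rw [AlgEquiv.apply_symm_apply]; exact h1⟩
  ord_const c hc := by
    rw [AlgEquiv.commutes]
    exact P.ord_const c hc
  residue x hx h0 := by
    obtain ⟨c, hc⟩ := P.residue (σ x) (by simpa using hx) h0
    refine ⟨c, ?_⟩
    rcases hc with hc | hc
    · left
      apply σ.injective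
      rw [hc, AlgEquiv.commutes]
    · right
      rw [map_sub, AlgEquiv.commutes]
      exact hc

end

theorem rmx_thm (hWAP : S_WAP) : S_RMX := by
  intro k L G _ _ _ _ _ P ρ N J hJ
  classical
  haveI : Fintype G := Fintype.ofFinite G
  let ι : Type := {n : G // n ∈ N ∧ n ∉ J}
  haveI : Fintype ι := Fintype.ofFinite ι
  obtain ⟨a, ha, a1, a2⟩ := hWAP k L ι P (fun n => rmxPl P (ρ n.1)) (by
    rintro ⟨n, hn, hnJ⟩
    by_contra hcon
    apply hnJ
    rw [hJ]
    refine ⟨hn, ?_⟩
    intro x hx
    by_contra hne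
    exact hcon ⟨x, hx, fun h => hne h.symm⟩)
  have hne : ∀ n : G, ρ n a ≠ 0 := fun n => by simpa using ha
  let s : Finset G := Finset.univ.filter fun n => n ∈ N
  refine ⟨∏ n ∈ s, ρ n a, Finset.prod_ne_zero_iff.2 fun n _ => hne n, ?_, ?_⟩
  · intro n hn
    rw [map_prod]
    refine Finset.prod_bij (fun m _ => n * m) ?_ ?_ ?_ ?_
    · intro m hm
      rw [Finset.mem_filter] at hm ⊢
      exact ⟨Finset.mem_univ _, N.mul_mem hn hm.2⟩
    · intro m _ m' _ h
      exact mul_left_cancel h
    · intro m hm
      rw [Finset.mem_filter] at hm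
      refine ⟨n⁻¹ * m, ?_, by group⟩
      rw [Finset.mem_filter]
      exact ⟨Finset.mem_univ _, N.mul_mem (N.inv_mem hn) hm.2⟩
    · intro m _
      rw [map_mul]
      rfl
  · have hprod : ∀ t : Finset G, P.ord (∏ n ∈ t, ρ n a) = ∑ n ∈ t, P.ord (ρ n a) := by
      intro t
      induction t using Finset.induction_on with
      | empty => rw [Finset.prod_empty, Finset.sum_empty, P.ord_one]
      | insert n t hn ih =>
        rw [Finset.prod_insert hn, Finset.sum_insert hn,
          P.ord_mul _ _ (hne n) (Finset.prod_ne_zero_iff.2 fun n _ => hne n), ih]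
    rw [hprod]
    have h1 : ∀ n ∈ s, P.ord (ρ n a) = if n ∈ J then 1 else 0 := by
      intro n hn
      rw [Finset.mem_filter] at hn
      by_cases hnJ : n ∈ J
      · rw [if_pos hnJ, ((hJ n).1 hnJ).2 a ha, a1]
      · rw [if_neg hnJ]
        exact a2 ⟨n, hn.2, hnJ⟩
    rw [Finset.sum_congr rfl h1, Finset.sum_ite, Finset.sum_const_zero, add_zero,
      Finset.sum_const, nsmul_eq_mul, mul_one]
    have h2 : (s.filter fun n => n ∈ J) = Finset.univ.filter fun n => n ∈ J := by
      ext n
      rw [Finset.mem_filter, Finset.mem_filter, Finset.mem_filter]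
      constructor
      · rintro ⟨-, h⟩
        exact ⟨Finset.mem_univ _, h⟩
      · rintro ⟨-, h⟩
        exact ⟨⟨Finset.mem_univ _, ((hJ n).1 h).1⟩, h⟩
    rw [h2]
    congr 1
    rw [← Fintype.card_subtype]
    exact (Nat.card_eq_fintype_card (α := {n : G // n ∈ J})).symm

end Pool.CND
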