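import Pool.Agent.H37.CNP.Stmts

/-!
# Row WAP of the board `cnp`: weak approximation
-/

set_option autoImplicit false

namespace Pool.CND

open Finset

section

variable {k L : Type} [Field k] [Field L] [Algebra k L]

theorem wap_ge (P Q : Place k L) (h : ∃ x : L, x ≠ 0 ∧ P.ord x ≠ Q.ord x) :
    ∃ a : L, a ≠ 0 ∧ 0 ≤ P.ord a ∧ Q.ord a < 0 := by
  by_contra hcon
  have h1 : ∀ a : L, a ≠ 0 → 0 ≤ P.ord a → 0 ≤ Q.ord a := by
    intro a ha hp
    by_contra hq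
    exact hcon ⟨a, ha, hp, by omega⟩
  have h2 : ∀ a : L, a ≠ 0 → P.ord a = 0 → Q.ord a = 0 := by
    intro a ha hp
    have h3 := h1 a ha (by omega)
    have h4 := h1 a⁻¹ (inv_ne_zero ha) (by rw [P.ord_inv ha]; omega)
    rw [Q.ord_inv ha] at h4
    omega
  have h3 : ∀ a : L, a ≠ 0 → Q.ord a = P.ord a * Q.ord P.pi := by
    intro a ha
    have hz : P.pi ^ (P.ord a) ≠ 0 := zpow_ne_zero _ P.pi_ne
    have h4 := h2 (a / P.pi ^ (P.ord a)) (div_ne_zero ha hz) (by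
      rw [P.ord_div ha hz, P.ord_zpow P.pi_ne, P.ord_pi]
      ring)
    rw [Q.ord_div ha hz, Q.ord_zpow P.pi_ne] at h4
    linarith
  have h4 : 0 ≤ Q.ord P.pi := h1 _ P.pi_ne (by rw [P.ord_pi]; norm_num)
  obtain ⟨y, hy, hy1⟩ := Q.ord_surj
  have h5 := h3 y hy
  rw [hy1] at h5
  have h6 : Q.ord P.pi = 1 := Int.eq_one_of_dvd_one h4 (Dvd.intro_left _ h5.symm)
  obtain ⟨x, hx, hne⟩ := h
  apply hne
  rw [h3 x hx, h6, mul_one]

theorem wap_two (P Q : Place k L) (h : ∃ x : L, x ≠ 0 ∧ P.ord x ≠ Q.ord x) :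
    ∃ a : L, a ≠ 0 ∧ P.ord a < 0 ∧ 0 < Q.ord a := by
  obtain ⟨a, ha, a1, a2⟩ := wap_ge P Q h
  obtain ⟨b, hb, b1, b2⟩ := wap_ge Q P (by
    obtain ⟨x, hx, hne⟩ := h
    exact ⟨x, hx, hne.symm⟩)
  refine ⟨b / a, div_ne_zero hb ha, ?_, ?_⟩
  · rw [P.ord_div hb ha]
    omega
  · rw [Q.ord_div hb ha]
    omega

theorem wap_pos (P : Place k L) {z : L} (h : 0 < P.ord z) :
    1 + z ≠ 0 ∧ P.ord (1 + z) = 0 := by
  have h1 := P.ord_add_of_lt (x := 1) (y := z) one_ne_zero (Or.inr (by rw [P.ord_one]; omega))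
  rw [P.ord_one] at h1
  exact h1

theorem wap_neg (P : Place k L) {z : L} (hz : z ≠ 0) (h : P.ord z < 0) :
    1 + z ≠ 0 ∧ P.ord (1 + z) = P.ord z := by
  have h1 := P.ord_add_of_lt (x := z) (y := 1) hz (Or.inr (by rw [P.ord_one]; omega))
  rw [add_comm] at h1
  exact h1

theorem wap_pow_pos (P : Place k L) {z : L} (hz : z ≠ 0) (h : 0 < P.ord z) {r : ℕ} (hr : 1 ≤ r) :
    1 + z ^ r ≠ 0 ∧ P.ord (1 + z ^ r) = 0 := by
  apply wap_pos
  rw [P.ord_pow hz]
  have : (0 : ℤ) < (r : ℤ) := by exact_mod_cast hr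
  positivity

theorem wap_pow_neg (P : Place k L) {z : L} (hz : z ≠ 0) (h : P.ord z < 0) {r : ℕ} (hr : 1 ≤ r) :
    1 + z ^ r ≠ 0 ∧ P.ord (1 + z ^ r) = r * P.ord z := by
  rw [← P.ord_pow hz]
  apply wap_neg P (pow_ne_zero _ hz)
  rw [P.ord_pow hz]
  have : (0 : ℤ) < (r : ℤ) := by exact_mod_cast hr
  nlinarith

theorem wap_many {ι : Type} (P : Place k L) (Q : ι → Place k L)
    (h : ∀ i, ∃ x : L, x ≠ 0 ∧ P.ord x ≠ (Q i).ord x) (s : Finset ι) :
    ∃ z : L, z ≠ 0 ∧ P.ord z < 0 ∧ ∀ i ∈ s, 0 < (Q i).ord z := by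
  classical
  induction s using Finset.induction_on with
  | empty =>
    refine ⟨P.pi⁻¹, inv_ne_zero P.pi_ne, ?_, fun i hi => by simp at hi⟩
    rw [P.ord_inv P.pi_ne, P.ord_pi]
    norm_num
  | insert n s hn ih =>
    obtain ⟨z, hz, z1, z2⟩ := ih
    obtain ⟨y, hy, y1, y2⟩ := wap_two P (Q n) (h n)
    set r : ℕ := 1 + ∑ i ∈ s, ((Q i).ord y).natAbs with hr
    have hr1 : 1 ≤ r := by omega
    have hri : ∀ i ∈ s, 0 < (r : ℤ) * (Q i).ord z + (Q i).ord y := by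
      intro i hi
      have h1 : ((Q i).ord y).natAbs ≤ ∑ i ∈ s, ((Q i).ord y).natAbs :=
        Finset.single_le_sum (f := fun i => ((Q i).ord y).natAbs) (fun _ _ => Nat.zero_le _) hi
      have h2 : (((Q i).ord y).natAbs : ℤ) + 1 ≤ r := by
        rw [hr]
        push_cast
        have : (((Q i).ord y).natAbs : ℤ) ≤ ((∑ i ∈ s, ((Q i).ord y).natAbs : ℕ) : ℤ) := by
          exact_mod_cast h1
        push_cast at this
        linarith
      have h3 : -(Q i).ord y ≤ (((Q i).ord y).natAbs : ℤ) := by omega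
      have h4 := z2 i hi
      nlinarith
    have hrpos : (0 : ℤ) < (r : ℤ) := by exact_mod_cast hr1
    by_cases hc : 0 ≤ (Q n).ord z
    · refine ⟨z ^ r * y, mul_ne_zero (pow_ne_zero _ hz) hy, ?_, ?_⟩
      · rw [P.ord_mul _ _ (pow_ne_zero _ hz) hy, P.ord_pow hz]
        nlinarith
      · intro i hi
        rw [(Q i).ord_mul _ _ (pow_ne_zero _ hz) hy, (Q i).ord_pow hz]
        rcases Finset.mem_insert.1 hi with rfl | hi
        · positivity
        · exact hri i hi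
    · rw [not_le] at hc
      obtain ⟨n1, p1⟩ := wap_pow_neg P hz z1 hr1
      have hzr := pow_ne_zero r hz
      refine ⟨y * (z ^ r / (1 + z ^ r)), mul_ne_zero hy (div_ne_zero hzr n1), ?_, ?_⟩
      · rw [P.ord_mul _ _ hy (div_ne_zero hzr n1), P.ord_div hzr n1, p1, P.ord_pow hz]
        linarith
      · intro i hi
        rw [(Q i).ord_mul _ _ hy (div_ne_zero hzr n1), (Q i).ord_div hzr n1, (Q i).ord_pow hz]
        rcases Finset.mem_insert.1 hi with rfl | hi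
        · rw [(wap_pow_neg (Q i) hz hc hr1).2]
          linarith
        · rw [(wap_pow_pos (Q i) hz (z2 i hi) hr1).2]
          have := hri i hi
          linarith

end

theorem wap_thm : S_WAP := by
  intro k L ι _ _ _ _ P Q h
  obtain ⟨z, hz, z1, z2⟩ := wap_many P Q h Finset.univ
  set r : ℕ := 2 + ∑ i, ((Q i).ord P.pi).natAbs with hr
  have hr1 : 1 ≤ r := by omega
  have hr2 : (2 : ℤ) ≤ (r : ℤ) := by
    have : 2 ≤ r := by omega
    exact_mod_cast this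
  obtain ⟨n1, p1⟩ := wap_pow_neg P hz z1 hr1
  have hzr := pow_ne_zero r hz
  have hpi := P.pi_ne
  have hz1 : P.pi * z ^ r ≠ 0 := mul_ne_zero hpi hzr
  have o1 : P.ord (P.pi * z ^ r) = 1 + r * P.ord z := by
    rw [P.ord_mul _ _ hpi hzr, P.ord_pi, P.ord_pow hz]
  have h2 := P.ord_add_of_lt (x := P.pi * z ^ r) (y := 1) hz1 (Or.inr (by
    rw [P.ord_one, o1]
    nlinarith))
  refine ⟨(P.pi * z ^ r + 1) / (1 + z ^ r), div_ne_zero h2.1 n1, ?_, ?_⟩
  · rw [P.ord_div h2.1 n1, h2.2, o1, p1]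
    ring
  · intro i
    have hi := z2 i (Finset.mem_univ i)
    obtain ⟨-, q1⟩ := wap_pow_pos (Q i) hz hi hr1
    have h3 : 0 < (Q i).ord (P.pi * z ^ r) := by
      rw [(Q i).ord_mul _ _ hpi hzr, (Q i).ord_pow hz]
      have h1 : ((Q i).ord P.pi).natAbs ≤ ∑ i, ((Q i).ord P.pi).natAbs :=
        Finset.single_le_sum (f := fun i => ((Q i).ord P.pi).natAbs) (fun _ _ => Nat.zero_le _)
          (Finset.mem_univ i)
      have h2 : (((Q i).ord P.pi).natAbs : ℤ) + 2 ≤ r := by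
        rw [hr]
        push_cast
        have : (((Q i).ord P.pi).natAbs : ℤ) ≤ ((∑ i, ((Q i).ord P.pi).natAbs : ℕ) : ℤ) := by
          exact_mod_cast h1
        push_cast at this
        linarith
      have h3 : -(Q i).ord P.pi ≤ (((Q i).ord P.pi).natAbs : ℤ) := by omega
      nlinarith
    have h4 := wap_pos (Q i) h3
    rw [add_comm] at h4
    rw [(Q i).ord_div h2.1 n1, h4.2, q1, sub_zero]

end Pool.CND
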